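import Pool.Agent.Tron.Def
import Pool.Agent.Tron.Game2
import Pool.Agent.Tron.Flip

/-!
# Tron on unweighted trees: Bob's advantage is at most 1/10

The value of Tron on every tree with `n ≥ 2` vertices and uniform weights `1 / n` is at most
`1 / 10`.  The definitions of the game (`moves`, `playValue`, `tronValue`) are in
`Pool.Agent.Tron.Def`.
-/

namespace Pool.Agent.Results.MP_a24dd8_co.TronTenth

open Pool.Agent.Tron

theorem result {V : Type*} [Fintype V] (G : SimpleGraph V) (hG : G.IsTree)
    (hn : 2 ≤ Fintype.card V) :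
    tronValue G (fun _ => 1 / (Fintype.card V : ℝ)) ≤ 1 / 10 := by
  classical
  by_contra hcon
  rw [not_le] at hcon
  have hnt : Nontrivial V := Fintype.one_lt_card_iff_nontrivial.1 (by omega)
  have hne : Nonempty V := hnt.to_nonempty
  set n := Fintype.card V with hndef
  have hnpos : (0 : ℝ) < n := by
    have : 0 < n := by omega
    exact_mod_cast this
  set c : ℝ := 1 / (n : ℝ) with hc
  have hcpos : 0 < c := by rw [hc]; positivity
  obtain ⟨m, hm1, hm2, hm3⟩ : ∃ m : ℕ, 1 ≤ m ∧ n + 1 ≤ 10 * m ∧ 10 * m ≤ n + 10 :=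
    ⟨n / 10 + 1, by omega, by omega, by omega⟩
  have hcm : c * ((m : ℝ) - 1) ≤ 1 / 10 := by
    have h1 : (10 : ℝ) * m ≤ n + 10 := by exact_mod_cast hm3
    rw [hc, div_mul_eq_mul_div, one_mul, div_le_div_iff₀ hnpos (by norm_num)]
    linarith
  refine core (ofTree hG) hm1 hm2 ?_
  intro u
  have h1 : 1 / 10 < ⨆ v : {v : V // v ≠ u},
      (c - c + playValue G (fun _ => c) n true {u, v.1} u v.1) :=
    lt_of_lt_of_le hcon (ciInf_le (Set.finite_range _).bddBelow u)
  obtain ⟨w, hw⟩ := exists_ne u
  have : Nonempty {v : V // v ≠ u} := ⟨⟨w, hw⟩⟩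
  obtain ⟨⟨v, hvu⟩, hv⟩ := exists_lt_of_lt_ciSup h1
  simp only [sub_self, zero_add] at hv
  set T := ofTree hG with hT
  have hD : T.d u v ≠ 0 := fun h => hvu (T.eq_of _ _ h).symm
  have hS : Sset hG u v 0 = {u, v} := by
    ext z
    rw [mem_Sset, Finset.mem_insert, Finset.mem_singleton]
    simp only [← hT]
    constructor
    · rintro ⟨_, h | h⟩
      · left; exact (T.eq_of _ _ (by omega)).symm
      · right; exact (T.eq_of _ _ (by omega)).symm
    · rintro (rfl | rfl)
      · have h1 := T.mt_le_right z v z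
        have h2 := T.self z
        exact ⟨by omega, Or.inl (by omega)⟩
      · have h2 := T.self z
        exact ⟨T.mt_self u z, Or.inr (by omega)⟩
  obtain ⟨ω, hω⟩ := walk_phase hG hcpos hm1 u v (T.d u v) 0 n u v
    (by simp only [← hT]; omega) (by simp only [← hT]; omega)
    (T.self u) (by
      have h1 := T.mt_le_right u v u
      have h2 := T.self u
      simp only [← hT]
      omega) (T.self v) (T.mt_self u v) (by omega) (fun y hy => absurd hy (Nat.not_lt_zero _)) (by
      rw [hS]
      linarith)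
  exact ⟨v, ω, hω⟩

end Pool.Agent.Results.MP_a24dd8_co.TronTenth
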